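import Pool.Agent.MP_f24711_lc.Lang

/-!
A locally finite universal class in a countable vocabulary with exactly one model of
cardinality `ℵ₀` and two non-isomorphic models of cardinality `ℵ₁`.
-/

namespace Pool.Agent.MP_f24711_lc

open Function Set FirstOrder FirstOrder.Language FirstOrder.Language.Structure

section

variable {M : Type} [L.Structure M]

/-- The image of a chart is a substructure. -/
lemma Fits.chart_closed {N : Model M} (hN : N.supp = univ) (hF : Fits N) {m : ℕ} {g : X m → M}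
    (hg : g ∈ N.ch m) {n : ℕ} (f : L.Functions n) (a : Fin n → M) (ha : ∀ i, a i ∈ range g) :
    funMap f a ∈ range g := by
  by_cases hex : ∃ h ∈ N.ch (Fn.k f), h ∘ Fn.x f = a
  · obtain ⟨h, hh, rfl⟩ := hex
    rw [hF.f1 n f h hh]
    obtain ⟨l, d, hd, hr⟩ := N.inter hh hg
    obtain ⟨c, hc, rfl⟩ := N.factor hh hd (by rw [hr]; exact inter_subset_left)
    obtain rfl : l = Fn.k f := Fn.gen f l c hc (Model.range_le_of (N.inj hh) (by
      rw [hr]
      rintro _ ⟨i, rfl⟩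
      exact ⟨⟨_, rfl⟩, ha i⟩))
    rw [hc.eq_id] at hr
    have : h (Fn.y f) ∈ range h ∩ range g := hr ▸ ⟨Fn.y f, rfl⟩
    exact this.2
  · rw [hF.f2 n f a (hN ▸ subset_univ _) fun h hh e => hex ⟨h, hh, e⟩]
    exact ha _

lemma K.locally_finite (h : K M) {s : Set M} (hs : s.Finite) :
    (Substructure.closure L s : Set M).Finite := by
  obtain ⟨N, hN, hF⟩ := h
  obtain ⟨m, g, hg, hsg⟩ := N.cover hs (hN ▸ subset_univ _)
  let S : L.Substructure M :=
    { carrier := range g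
      fun_mem := fun f a ha => hF.chart_closed hN hg f a ha }
  have : Substructure.closure L s ≤ S := Substructure.closure_le.mpr hsg
  exact (finite_range g).subset this

lemma K.directed (C : Set (L.Substructure M)) (hC : C.Nonempty) (hd : DirectedOn (· ≤ ·) C)
    (h : ∀ S ∈ C, K S) (hU : ∀ x : M, ∃ S ∈ C, x ∈ S) : K M := by
  let c : Set (Model M) := {N | Fits N ∧ ∃ S ∈ C, N.supp = S}
  have hle : ∀ N ∈ c, ∀ N' ∈ c, N.supp ⊆ N'.supp → N.Le N' := by
    intro N hN N' hN' hs k g hg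
    exact (hN'.1.rel k g ((N.range_subset hg).trans hs)).mp
      ((hN.1.rel k g (N.range_subset hg)).mpr hg)
  have hex : ∀ S ∈ C, ∃ N ∈ c, N.supp = S := by
    intro S hS
    obtain ⟨N, hN, hF⟩ := (K_iff_good S).mp (h S hS)
    exact ⟨N, ⟨hF, S, hS, hN⟩, hN⟩
  have hcc : ∀ N ∈ c, ∀ N' ∈ c, ∃ N'' ∈ c, N.Le N'' ∧ N'.Le N'' := by
    intro N hN N' hN'
    obtain ⟨S, hS, e⟩ := hN.2
    obtain ⟨S', hS', e'⟩ := hN'.2
    obtain ⟨S'', hS'', h1, h2⟩ := hd S hS S' hS'
    obtain ⟨N'', hN'', e''⟩ := hex S'' hS''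
    exact ⟨N'', hN'', hle N hN N'' hN'' (by rw [e, e'']; exact h1),
      hle N' hN' N'' hN'' (by rw [e', e'']; exact h2)⟩
  have hne : c.Nonempty := by
    obtain ⟨S, hS⟩ := hC
    obtain ⟨N, hN, -⟩ := hex S hS
    exact ⟨N, hN⟩
  let U : Model M :=
    { ch := fun k => {h | ∃ N ∈ c, h ∈ N.ch k}
      inj := fun ⟨N, _, h⟩ => N.inj h
      comp := fun ⟨N, hN, h⟩ he => ⟨N, hN, N.comp h he⟩
      dir := by
        rintro k k' h h' ⟨N, hN, hh⟩ ⟨N', hN', hh'⟩
        obtain ⟨N'', hN'', h1, h2⟩ := hcc N hN N' hN'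
        obtain ⟨m, g, e, e', hg, r⟩ := N''.dir (h1 _ hh) (h2 _ hh')
        exact ⟨m, g, e, e', ⟨N'', hN'', hg⟩, r⟩
      base := by
        obtain ⟨N, hN⟩ := hne
        obtain ⟨h, hh⟩ := N.base
        exact ⟨h, N, hN, hh⟩ }
  have hleU : ∀ N ∈ c, N.Le U := fun N hN _ _ hh => ⟨N, hN, hh⟩
  have hfin : ∀ T : Set M, T.Finite → T ⊆ U.supp → ∃ N ∈ c, T ⊆ N.supp := by
    intro T hT hTs
    obtain ⟨m, G, ⟨N, hN, hG⟩, hTG⟩ := U.cover hT hTs
    exact ⟨N, hN, hTG.trans (N.range_subset hG)⟩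
  refine ⟨U, ?_, fun k g hg => ?_, ?_, fun n f a ha hna => ?_⟩
  · refine eq_univ_of_forall fun x => ?_
    obtain ⟨S, hS, hx⟩ := hU x
    obtain ⟨N, hN, e⟩ := hex S hS
    exact (hleU N hN).supp (e ▸ hx)
  · obtain ⟨N, hN, hs⟩ := hfin _ (finite_range g) hg
    rw [hN.1.rel k g hs]
    exact ⟨fun h' => ⟨N, hN, h'⟩, fun h' => (hleU N hN).mem_of_range h' hs⟩
  · rintro n f g ⟨N, hN, hg⟩
    exact hN.1.f1 n f g hg
  · obtain ⟨N, hN, hs⟩ := hfin _ (finite_range a) ha
    exact hN.1.f2 n f a hs fun g hg => hna g ⟨N, hN, hg⟩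

lemma K.exists_countable (h : K M) (hM : Infinite M) :
    ∃ S : L.Substructure M, K S ∧ Cardinal.mk S = Cardinal.aleph0 := by
  have hL : Countable (Σ n, L.Functions n) := inferInstance
  let s : Set M := range (Infinite.natEmbedding M)
  refine ⟨Substructure.closure L s, h.substructure _, ?_⟩
  have h1 : (Substructure.closure L s : Set M).Countable :=
    (countable_range _).substructure_closure L
  have h2 : (Substructure.closure L s : Set M).Infinite :=
    (infinite_range_of_injective (Infinite.natEmbedding M).injective).mono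
      Substructure.subset_closure
  have := h1.to_subtype
  have := h2.to_subtype
  exact Cardinal.mk_eq_aleph0 (Substructure.closure L s : Set M)

end

end Pool.Agent.MP_f24711_lc

theorem Pool.Agent.Results.MP_f24711_lc.TwoModels.result :
    ∃ (L : FirstOrder.Language.{0, 0}) (K : ∀ (M : Type) [L.Structure M], Prop),
      Countable L.Symbols ∧
      (∀ (M N : Type) [L.Structure M] [L.Structure N], Nonempty (L.Equiv M N) → K M → K N) ∧
      (∀ (M : Type) [L.Structure M] (S : L.Substructure M), K M → K S) ∧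
      (∀ (M : Type) [L.Structure M] (C : Set (L.Substructure M)), C.Nonempty →
        DirectedOn (· ≤ ·) C → (∀ S ∈ C, K S) → (∀ x : M, ∃ S ∈ C, x ∈ S) → K M) ∧
      (∀ (M : Type) [L.Structure M], K M → ∀ s : Set M, s.Finite →
        (FirstOrder.Language.Substructure.closure L s : Set M).Finite) ∧
      (∃ (M₀ : Type) (_ : L.Structure M₀), K M₀ ∧ Cardinal.mk M₀ = Cardinal.aleph0 ∧
        ∀ (N : Type) [L.Structure N], K N → Cardinal.mk N = Cardinal.aleph0 →
          Nonempty (L.Equiv N M₀)) ∧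
      (∃ (M₁ : Type) (_ : L.Structure M₁) (M₂ : Type) (_ : L.Structure M₂),
        K M₁ ∧ K M₂ ∧ Cardinal.mk M₁ = Cardinal.aleph 1 ∧ Cardinal.mk M₂ = Cardinal.aleph 1 ∧
          IsEmpty (L.Equiv M₁ M₂)) := by
  obtain ⟨M₁, M₂, i₁, i₂, h₁, h₂, c₁, c₂, hne⟩ := Pool.Agent.MP_f24711_lc.two_models
  refine ⟨Pool.Agent.MP_f24711_lc.L, Pool.Agent.MP_f24711_lc.K,
    Cardinal.mk_le_aleph0_iff.mp Pool.Agent.MP_f24711_lc.card_L,
    fun _ _ _ _ ⟨φ⟩ hM => hM.of_equiv φ, fun _ _ S hM => hM.substructure S,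
    fun _ _ C hC hd hK hU => Pool.Agent.MP_f24711_lc.K.directed C hC hd hK hU,
    fun _ _ hM _ hs => hM.locally_finite hs, ?_,
    ⟨M₁, i₁, M₂, i₂, h₁, h₂, c₁, c₂, hne⟩⟩
  have hinf : Infinite M₁ :=
    Cardinal.aleph0_le_mk_iff.mp (c₁ ▸ Cardinal.aleph0_lt_aleph_one.le)
  obtain ⟨S, hS, cS⟩ := h₁.exists_countable hinf
  exact ⟨S, inferInstance, hS, cS, fun N _ hN cN => hN.categorical hS cN cS⟩
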